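import Mathlib
import Pool.Agent.Lib.MP_93e4b7_co.Data

set_option autoImplicit false

namespace Pool.Agent.Results.MP_93e4b7_co.SimpleRankFive

open Pool.Agent.Lib.MP_93e4b7_co

/-- `μ` is a generator multiplicity function on `F_2^r`, extended by the value `0` at the zero
vector: its support consists of nonzero vectors and spans `F_2^r`. -/
def IsMultiplicity (r : ℕ) (μ : (Fin r → ZMod 2) → ℕ) : Prop :=
  μ 0 = 0 ∧ Submodule.span (ZMod 2) {u | μ u ≠ 0} = ⊤

/-- The Laplacian of the Cayley graph `G(F_2^r, μ)`: the diagonal entries are the degree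
`∑ w, μ w`, and the entry at `u ≠ v` is minus the number `μ (u - v)` of edges between them. -/
def laplacian (r : ℕ) (μ : (Fin r → ZMod 2) → ℕ) :
    Matrix (Fin r → ZMod 2) (Fin r → ZMod 2) ℤ :=
  fun u v => if u = v then ((∑ w, μ w : ℕ) : ℤ) else -((μ (u - v) : ℕ) : ℤ)

/-- The lattice `L ℤ^V`: the subgroup of `ℤ^V` generated by the columns of the Laplacian `L`,
where `V = F_2^r`. -/
def columnLattice (r : ℕ) (μ : (Fin r → ZMod 2) → ℕ) : AddSubgroup ((Fin r → ZMod 2) → ℤ) :=
  AddSubgroup.closure (Set.range (laplacian r μ).transpose)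

/-- The sandpile group `K(G(F_2^r, μ))`: the torsion subgroup of the cokernel `ℤ^V / L ℤ^V`. -/
def sandpile (r : ℕ) (μ : (Fin r → ZMod 2) → ℕ) :
    AddSubgroup (((Fin r → ZMod 2) → ℤ) ⧸ columnLattice r μ) :=
  AddCommGroup.torsion (((Fin r → ZMod 2) → ℤ) ⧸ columnLattice r μ)

/-- `GL_r(F_2)`-equivalence of multiplicity functions. -/
def GLEquivalent (r : ℕ) (μ ν : (Fin r → ZMod 2) → ℕ) : Prop :=
  ∃ T : (Fin r → ZMod 2) ≃ₗ[ZMod 2] (Fin r → ZMod 2), ∀ u, ν (T u) = μ u

/-- Binary code of a vector. -/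
def enc (u : Fin 5 → ZMod 2) : ℕ :=
  (u 0).val + 2 * (u 1).val + 4 * (u 2).val + 8 * (u 3).val + 16 * (u 4).val

/-- Vector with a given binary code. -/
def dec (x : ℕ) : Fin 5 → ZMod 2 := fun k => ((x / 2 ^ (k : ℕ) % 2 : ℕ) : ZMod 2)

/-- Indicator function of a list of codes. -/
def ind (l : List ℕ) (u : Fin 5 → ZMod 2) : ℕ := if enc u ∈ l then 1 else 0

/-- First generating set. -/
def S1 : List ℕ := [1, 2, 3, 4, 5, 8, 16, 30]

/-- Second generating set. -/
def S2 : List ℕ := [1, 2, 3, 4, 8, 12, 16, 21]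

theorem enc_lt : ∀ u : Fin 5 → ZMod 2, enc u < 32 := by decide +kernel

theorem dec_enc : ∀ u : Fin 5 → ZMod 2, dec (enc u) = u := by decide +kernel

theorem enc_dec : ∀ x : Fin 32, enc (dec x) = x := by decide +kernel

/-- The binary coding as an equivalence. -/
def e : (Fin 5 → ZMod 2) ≃ Fin 32 where
  toFun u := ⟨enc u, enc_lt u⟩
  invFun x := dec x
  left_inv u := dec_enc u
  right_inv x := Fin.ext (enc_dec x)

theorem sum1 : ∑ u, ind S1 u = 8 := by decide +kernel

theorem sum2 : ∑ u, ind S2 u = 8 := by decide +kernel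

theorem lap1 : ∀ i j : Fin 32, (matL1.getD i []).getD j 0 =
    if dec i = dec j then (8 : ℤ) else -((ind S1 (dec i - dec j) : ℕ) : ℤ) := by
  decide +kernel

theorem lap2 : ∀ i j : Fin 32, (matL2.getD i []).getD j 0 =
    if dec i = dec j then (8 : ℤ) else -((ind S2 (dec i - dec j) : ℕ) : ℤ) := by
  decide +kernel

theorem lap1' (u v : Fin 5 → ZMod 2) : toMat 32 matL1 (e u) (e v) = laplacian 5 (ind S1) u v := by
  have h := lap1 (e u) (e v)
  have hu : dec (e u : Fin 32) = u := dec_enc u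
  have hv : dec (e v : Fin 32) = v := dec_enc v
  rw [hu, hv] at h
  rw [toMat, h, laplacian, sum1]
  rfl

theorem lap2' (u v : Fin 5 → ZMod 2) : toMat 32 matL2 (e u) (e v) = laplacian 5 (ind S2) u v := by
  have h := lap2 (e u) (e v)
  have hu : dec (e u : Fin 32) = u := dec_enc u
  have hv : dec (e v : Fin 32) = v := dec_enc v
  rw [hu, hv] at h
  rw [toMat, h, laplacian, sum2]
  rfl

theorem columnLattice_eq (μ : (Fin 5 → ZMod 2) → ℕ) :
    columnLattice 5 μ = (LinearMap.range (Matrix.mulVecLin (laplacian 5 μ))).toAddSubgroup := by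
  apply le_antisymm
  · unfold columnLattice
    rw [AddSubgroup.closure_le]
    rintro _ ⟨j, rfl⟩
    refine ⟨Pi.single j 1, ?_⟩
    simp [Matrix.col_def]
  · rintro _ ⟨x, rfl⟩
    have h : Matrix.mulVecLin (laplacian 5 μ) x =
        ∑ j, x j • (laplacian 5 μ).transpose j := by
      funext i
      simp only [Matrix.mulVecLin_apply, Matrix.mulVec, dotProduct, Finset.sum_apply,
        Pi.smul_apply, Matrix.transpose_apply, smul_eq_mul]
      exact Finset.sum_congr rfl fun j _ => mul_comm _ _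
    rw [h]
    refine AddSubgroup.sum_mem _ fun j _ => AddSubgroup.zsmul_mem _ ?_ _
    exact AddSubgroup.subset_closure (Set.mem_range_self j)

/-- The two descriptions of the cokernel agree. -/
theorem quot_iso (μ : (Fin 5 → ZMod 2) → ℕ) :
    Nonempty ((((Fin 5 → ZMod 2) → ℤ) ⧸ columnLattice 5 μ) ≃+
      (((Fin 5 → ZMod 2) → ℤ) ⧸ LinearMap.range (Matrix.mulVecLin (laplacian 5 μ)))) :=
  ⟨QuotientAddGroup.quotientAddEquivOfEq (columnLattice_eq μ)⟩

theorem sandpile_iso : Nonempty (sandpile 5 (ind S1) ≃+ sandpile 5 (ind S2)) := by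
  obtain ⟨f⟩ := cokerReindex e (laplacian 5 (ind S1)) (toMat 32 matL1) lap1'
  obtain ⟨g⟩ := cokerReindex e (laplacian 5 (ind S2)) (toMat 32 matL2) lap2'
  obtain ⟨h⟩ := coker12
  obtain ⟨q1⟩ := quot_iso (ind S1)
  obtain ⟨q2⟩ := quot_iso (ind S2)
  exact torsionIso' ((q1.trans ((f.trans h).trans g.symm).toAddEquiv).trans q2.symm)

/-- The standard basis vectors lie in both generating sets. -/
theorem basis_mem : ∀ k : Fin 5, ind S1 (Pi.single k 1) ≠ 0 ∧ ind S2 (Pi.single k 1) ≠ 0 := by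
  decide +kernel

theorem span_top (μ : (Fin 5 → ZMod 2) → ℕ) (h : ∀ k : Fin 5, μ (Pi.single k 1) ≠ 0) :
    Submodule.span (ZMod 2) {u | μ u ≠ 0} = ⊤ := by
  rw [eq_top_iff]
  intro x _
  have hx : x = ∑ k : Fin 5, x k • (Pi.single k 1 : Fin 5 → ZMod 2) := by
    funext j
    simp [Finset.sum_apply, Pi.single_apply]
  rw [hx]
  exact Submodule.sum_mem _ fun k _ => Submodule.smul_mem _ _ (Submodule.subset_span (h k))

/-- In the second set no element lies in two different circuits of size three. -/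
theorem no_two_triangles : ∀ a ∈ S2, ∀ b ∈ S2, ∀ c ∈ S2,
    b ≠ c → enc (dec a + dec b) ∈ S2 → enc (dec a + dec c) ∈ S2 →
      enc (dec a + dec b) = c := by decide +kernel

theorem not_equiv : ¬ GLEquivalent 5 (ind S1) (ind S2) := by
  rintro ⟨T, hT⟩
  have hmem : ∀ x : ℕ, x ∈ S1 → enc (T (dec x)) ∈ S2 := by
    intro x hx
    have h1 : ind S1 (dec x) = 1 := by
      have hlist : ∀ y ∈ S1, ind S1 (dec y) = 1 := by decide +kernel
      exact hlist x hx
    have h2 : ind S2 (T (dec x)) = 1 := by rw [hT, h1]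
    by_contra hne
    rw [ind, if_neg hne] at h2
    exact absurd h2 (by norm_num)
  have hdec : ∀ x, dec (enc (T (dec x))) = T (dec x) := fun x => dec_enc _
  have hadd2 : dec 1 + dec 2 = dec 3 := by decide +kernel
  have hadd4 : dec 1 + dec 4 = dec 5 := by decide +kernel
  have hinj : ∀ x y : ℕ, enc (T (dec x)) = enc (T (dec y)) → dec x = dec y := by
    intro x y h
    have := congrArg dec h
    rw [hdec, hdec] at this
    exact T.injective this
  have h := no_two_triangles (enc (T (dec 1))) (hmem 1 (by decide)) (enc (T (dec 2)))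
    (hmem 2 (by decide)) (enc (T (dec 4))) (hmem 4 (by decide))
    (fun hbc => absurd (hinj 2 4 hbc) (by decide +kernel))
    (by
      rw [hdec, hdec, ← map_add, hadd2]
      exact hmem 3 (by decide))
    (by
      rw [hdec, hdec, ← map_add, hadd4]
      exact hmem 5 (by decide))
  rw [hdec, hdec, ← map_add, hadd2] at h
  exact absurd (hinj 3 4 h) (by decide +kernel)

theorem ind_zero : ind S1 0 = 0 ∧ ind S2 0 = 0 := by decide +kernel

theorem ind_le (l : List ℕ) (u : Fin 5 → ZMod 2) : ind l u ≤ 1 := by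
  unfold ind
  split_ifs <;> norm_num

/-- The Cayley graphs of `μ` and `ν` are isomorphic: some bijection `f` of the vertex set
`F_2^r` preserves the number of edges between any two vertices. -/
def GraphIso (r : ℕ) (μ ν : (Fin r → ZMod 2) → ℕ) : Prop :=
  ∃ f : (Fin r → ZMod 2) ≃ (Fin r → ZMod 2), ∀ u v, ν (f u - f v) = μ (u - v)

theorem not_iso : ¬ GraphIso 5 (ind S1) (ind S2) := by
  rintro ⟨f, hf⟩
  have hsub : ∀ u v : Fin 5 → ZMod 2, u - v = u + v := by
    intro u v
    funext k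
    simp only [Pi.sub_apply, Pi.add_apply]
    generalize u k = a
    generalize v k = b
    revert a b
    decide
  have hlist : ∀ y ∈ S1, ind S1 (dec y) = 1 := by decide +kernel
  have hmem : ∀ u v : Fin 5 → ZMod 2, ind S1 (u - v) = 1 → enc (f u - f v) ∈ S2 := by
    intro u v h1
    have h2 : ind S2 (f u - f v) = 1 := by rw [hf, h1]
    by_contra hne
    rw [ind, if_neg hne] at h2
    exact absurd h2 (by norm_num)
  have hadj : ∀ x ∈ S1, enc (f (dec x) - f 0) ∈ S2 := by
    intro x hx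
    refine hmem _ _ ?_
    rw [sub_zero]
    exact hlist x hx
  have hdec : ∀ u : Fin 5 → ZMod 2, dec (enc u) = u := fun u => dec_enc u
  have hne : ∀ x y : ℕ, dec x ≠ dec y → enc (f (dec x) - f 0) ≠ enc (f (dec y) - f 0) := by
    intro x y hxy h
    have h1 := congrArg dec h
    rw [hdec, hdec] at h1
    exact hxy (f.injective (sub_left_injective h1))
  have hsum : ∀ x : ℕ, ind S1 (dec 1 - dec x) = 1 →
      enc (dec (enc (f (dec 1) - f 0)) + dec (enc (f (dec x) - f 0))) ∈ S2 := by
    intro x hx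
    rw [hdec, hdec, ← hsub, sub_sub_sub_cancel_right]
    exact hmem _ _ hx
  have key : ∀ y : ℕ, y ∈ S1 → dec 2 ≠ dec y → ind S1 (dec 1 - dec y) = 1 →
      enc (dec (enc (f (dec 1) - f 0)) + dec (enc (f (dec 2) - f 0)))
        = enc (f (dec y) - f 0) := by
    intro y hy hne2 hy1
    exact no_two_triangles _ (hadj 1 (by decide)) _ (hadj 2 (by decide)) _ (hadj y hy)
      (hne 2 y hne2) (hsum 2 (by decide +kernel)) (hsum y hy1)
  have h4 := key 4 (by decide) (by decide +kernel) (by decide +kernel)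
  have h5 := key 5 (by decide) (by decide +kernel) (by decide +kernel)
  exact hne 4 5 (by decide +kernel) (h4.symm.trans h5)

/-- There are two multiplicity functions on `F_2^5`, both with values in `{0, 1}` and both with
total multiplicity `8` (so both Cayley graphs are simple and `8`-regular), whose Cayley graphs
are not isomorphic (in particular they are not `GL_5(F_2)`-equivalent) although these graphs have
isomorphic sandpile groups. -/
theorem result : ∃ μ ν : (Fin 5 → ZMod 2) → ℕ,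
    IsMultiplicity 5 μ ∧ IsMultiplicity 5 ν ∧
    (∀ u, μ u ≤ 1) ∧ (∀ u, ν u ≤ 1) ∧ ∑ u, μ u = 8 ∧ ∑ u, ν u = 8 ∧
    Nonempty (sandpile 5 μ ≃+ sandpile 5 ν) ∧ ¬ GLEquivalent 5 μ ν ∧ ¬ GraphIso 5 μ ν :=
  ⟨ind S1, ind S2,
    ⟨ind_zero.1, span_top _ fun k => (basis_mem k).1⟩,
    ⟨ind_zero.2, span_top _ fun k => (basis_mem k).2⟩,
    ind_le S1, ind_le S2, sum1, sum2, sandpile_iso, not_equiv, not_iso⟩

end Pool.Agent.Results.MP_93e4b7_co.SimpleRankFive
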